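import Pool.Agent.H8.MC.Targets

/-!
# Board mcl_modules, row MFS: having a given subgraph is definable
-/

set_option autoImplicit false

namespace Pool.Agent.H49.MC

open Pool.Agent.H8.MC Pool.Agent.H69.VR Pool.Agent.H8.VR Pool.Agent.H69.Sp

theorem pf_mfs (hM : T_MSC) : T_MFS := by
  obtain ⟨-, hbi, heq, -, hcon, -, hand, -, himp, -, -, -, -, hall, -, hex, -⟩ := hM
  intro h F
  have h1 : ∀ ij : Fin h × Fin h, MD fun A _ E e _ =>
      (e (ij.1 : ℕ) = e (ij.2 : ℕ) → ij.1 = ij.2) ∧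
        (F.Adj ij.1 ij.2 → E (e (ij.1 : ℕ)) (e (ij.2 : ℕ))) := fun ij =>
    hand _ _ (himp _ _ (heq ij.1 ij.2) (hcon (ij.1 = ij.2)))
      (himp _ _ (hcon (F.Adj ij.1 ij.2)) (hbi ij.1 ij.2))
  obtain ⟨χ, hχ, hs⟩ := hex h _ (hall (Fin h × Fin h) _ h1)
  refine ⟨χ, hχ, ?_⟩
  intro A P R G hR e V
  rw [hs A P R e V]
  constructor
  · rintro ⟨f, hf⟩
    have hval : ∀ i : Fin h, (if hj : (i : ℕ) < h then f ⟨i, hj⟩ else e i) = f i := fun i => by
      rw [dif_pos i.2]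
    refine ⟨f, ?_, ?_⟩
    · intro a b hab
      have h2 := (hf (a, b)).1
      simp only [hval] at h2
      exact h2 hab
    · intro a b hab
      have h2 := (hf (a, b)).2
      simp only [hval] at h2
      exact (hR _ _).1 (h2 hab)
  · rintro ⟨f, hf, hf2⟩
    have hval : ∀ i : Fin h, (if hj : (i : ℕ) < h then f ⟨i, hj⟩ else e i) = f i := fun i => by
      rw [dif_pos i.2]
    refine ⟨f, fun ij => ?_⟩
    simp only [hval]
    exact ⟨fun h2 => hf h2, fun h2 => (hR _ _).2 (hf2 _ _ h2)⟩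

end Pool.Agent.H49.MC
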